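import Mathlib

set_option autoImplicit false

open MeasureTheory Topology

namespace Pool.Agent.Results.MP_ca8afd_an.LexOrder

/-- `F` lies in the closure of the set `W` (of bounded measurable functions) for the weak-star
topology `σ(L^∞(σ), L^1(σ))`: every basic neighbourhood of `F`, given by finitely many integrable
functions `h i` and some `ε > 0`, contains an element of `W`. -/
def InWeakStarClosure {S : Type} [MeasurableSpace S] (σ : Measure S)
    (W : Set (S → ℂ)) (F : S → ℂ) : Prop :=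
  ∀ (n : ℕ) (h : Fin n → S → ℂ), (∀ i, Integrable (h i) σ) → ∀ ε : ℝ, 0 < ε →
    ∃ g ∈ W, ∀ i, ‖∫ s, (F s - g s) * h i s ∂σ‖ < ε

/-- `F` represents an element of `L^∞(σ)`: it is measurable and essentially bounded. -/
def IsLInf {S : Type} [MeasurableSpace S] (σ : Measure S) (F : S → ℂ) : Prop :=
  AEStronglyMeasurable F σ ∧ ∃ C : ℝ, ∀ᵐ s ∂σ, ‖F s‖ ≤ C

/-- `F` represents an element of `A_σ`, the weak-star closure of `A` in `L^∞(σ)`. -/
def MemASigma {S : Type} [TopologicalSpace S] [MeasurableSpace S] (σ : Measure S)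
    (A : Subalgebra ℂ C(S, ℂ)) (F : S → ℂ) : Prop :=
  IsLInf σ F ∧ InWeakStarClosure σ {g | ∃ a ∈ A, ∀ s, g s = a s} F

section general

set_option linter.unusedSectionVars false

variable {S : Type} [TopologicalSpace S] [CompactSpace S] [MeasurableSpace S] [BorelSpace S]

lemma cont_meas (σ : Measure S) (a : C(S, ℂ)) : AEStronglyMeasurable (fun s => a s) σ :=
  a.continuous.aestronglyMeasurable

lemma integrable_bdd_mul (σ : Measure S) {F h : S → ℂ} (hF : AEStronglyMeasurable F σ)
    (hb : ∃ C : ℝ, ∀ᵐ s ∂σ, ‖F s‖ ≤ C) (hh : Integrable h σ) :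
    Integrable (fun s => F s * h s) σ := by
  obtain ⟨C, hC⟩ := hb
  exact hh.bdd_mul hF hC

lemma cont_bdd (σ : Measure S) (a : C(S, ℂ)) : ∃ C : ℝ, ∀ᵐ s ∂σ, ‖a s‖ ≤ C :=
  ⟨‖a‖, Filter.Eventually.of_forall fun s => a.norm_coe_le_norm s⟩

lemma MemASigma.mul {σ : Measure S} {A : Subalgebra ℂ C(S, ℂ)} {F G : S → ℂ}
    (hF0 : MemASigma σ A F) (hG0 : MemASigma σ A G) : MemASigma σ A (F * G) := by
  obtain ⟨⟨hF, hFb⟩, hFc⟩ := hF0
  obtain ⟨⟨hG, hGb⟩, hGc⟩ := hG0
  refine ⟨⟨hF.mul hG, ?_⟩, ?_⟩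
  · obtain ⟨C, hC⟩ := hFb
    obtain ⟨D, hD⟩ := hGb
    refine ⟨C * D, ?_⟩
    filter_upwards [hC, hD] with s h1 h2
    simp only [Pi.mul_apply, norm_mul]
    exact mul_le_mul h1 h2 (norm_nonneg _) (le_trans (norm_nonneg _) h1)
  · intro n h hh ε hε
    obtain ⟨g', ⟨g, hgA, hg⟩, hg2⟩ := hGc n (fun i s => F s * h i s)
      (fun i => integrable_bdd_mul σ hF hFb (hh i)) (ε / 2) (by positivity)
    obtain ⟨f', ⟨f, hfA, hf⟩, hf2⟩ := hFc n (fun i s => g s * h i s)
      (fun i => integrable_bdd_mul σ (cont_meas σ g) (cont_bdd σ g) (hh i)) (ε / 2)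
      (by positivity)
    refine ⟨fun s => f s * g s, ⟨f * g, A.mul_mem hfA hgA, fun s => rfl⟩, fun i => ?_⟩
    have e1 : ∀ s, ((F * G) s - f s * g s) * h i s =
        (G s - g' s) * (F s * h i s) + (F s - f' s) * (g s * h i s) := by
      intro s
      rw [hg, hf]
      simp only [Pi.mul_apply]
      ring
    have i1 : Integrable (fun s => (G s - g' s) * (F s * h i s)) σ := by
      have : (fun s => (G s - g' s) * (F s * h i s)) =
          fun s => G s * (F s * h i s) - g s * (F s * h i s) := by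
        funext s; rw [hg]; ring
      rw [this]
      exact (integrable_bdd_mul σ hG hGb (integrable_bdd_mul σ hF hFb (hh i))).sub
        (integrable_bdd_mul σ (cont_meas σ g) (cont_bdd σ g)
          (integrable_bdd_mul σ hF hFb (hh i)))
    have i2 : Integrable (fun s => (F s - f' s) * (g s * h i s)) σ := by
      have : (fun s => (F s - f' s) * (g s * h i s)) =
          fun s => F s * (g s * h i s) - f s * (g s * h i s) := by
        funext s; rw [hf]; ring
      rw [this]
      have := integrable_bdd_mul σ (cont_meas σ g) (cont_bdd σ g) (hh i)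
      exact (integrable_bdd_mul σ hF hFb this).sub
        (integrable_bdd_mul σ (cont_meas σ f) (cont_bdd σ f) this)
    simp_rw [e1]
    rw [integral_add i1 i2]
    calc _ ≤ _ := norm_add_le _ _
      _ < ε / 2 + ε / 2 := add_lt_add (hg2 i) (hf2 i)
      _ = ε := by ring

lemma MemASigma.add {σ : Measure S} {A : Subalgebra ℂ C(S, ℂ)} {F G : S → ℂ}
    (hF0 : MemASigma σ A F) (hG0 : MemASigma σ A G) : MemASigma σ A (F + G) := by
  obtain ⟨⟨hF, hFb⟩, hFc⟩ := hF0
  obtain ⟨⟨hG, hGb⟩, hGc⟩ := hG0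
  refine ⟨⟨hF.add hG, ?_⟩, ?_⟩
  · obtain ⟨C, hC⟩ := hFb
    obtain ⟨D, hD⟩ := hGb
    refine ⟨C + D, ?_⟩
    filter_upwards [hC, hD] with s h1 h2
    simp only [Pi.add_apply]
    exact (norm_add_le _ _).trans (add_le_add h1 h2)
  · intro n h hh ε hε
    obtain ⟨g', ⟨g, hgA, hg⟩, hg2⟩ := hGc n h hh (ε / 2) (by positivity)
    obtain ⟨f', ⟨f, hfA, hf⟩, hf2⟩ := hFc n h hh (ε / 2) (by positivity)
    refine ⟨fun s => f s + g s, ⟨f + g, A.add_mem hfA hgA, fun s => rfl⟩, fun i => ?_⟩
    have e1 : ∀ s, ((F + G) s - (f s + g s)) * h i s =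
        (G s - g' s) * h i s + (F s - f' s) * h i s := by
      intro s
      rw [hg, hf]
      simp only [Pi.add_apply]
      ring
    have i1 : Integrable (fun s => (G s - g' s) * h i s) σ := by
      have : (fun s => (G s - g' s) * h i s) = fun s => G s * h i s - g s * h i s := by
        funext s; rw [hg]; ring
      rw [this]
      exact (integrable_bdd_mul σ hG hGb (hh i)).sub
        (integrable_bdd_mul σ (cont_meas σ g) (cont_bdd σ g) (hh i))
    have i2 : Integrable (fun s => (F s - f' s) * h i s) σ := by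
      have : (fun s => (F s - f' s) * h i s) = fun s => F s * h i s - f s * h i s := by
        funext s; rw [hf]; ring
      rw [this]
      exact (integrable_bdd_mul σ hF hFb (hh i)).sub
        (integrable_bdd_mul σ (cont_meas σ f) (cont_bdd σ f) (hh i))
    simp_rw [e1]
    rw [integral_add i1 i2]
    calc _ ≤ _ := norm_add_le _ _
      _ < ε / 2 + ε / 2 := add_lt_add (hg2 i) (hf2 i)
      _ = ε := by ring

lemma MemASigma.const (σ : Measure S) (A : Subalgebra ℂ C(S, ℂ)) (c : ℂ) :
    MemASigma σ A (algebraMap ℂ (S → ℂ) c) := by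
  refine ⟨⟨aestronglyMeasurable_const, ‖c‖, Filter.Eventually.of_forall fun s => ?_⟩, ?_⟩
  · simp [Pi.algebraMap_apply]
  · intro n h hh ε hε
    refine ⟨fun _ => c, ⟨algebraMap ℂ _ c, A.algebraMap_mem c, fun s => rfl⟩, fun i => ?_⟩
    simpa [Pi.algebraMap_apply] using hε

/-- The algebra (under pointwise operations) of all functions on `S` representing an element of
`A_σ`. -/
def weakStarFunctions (σ : Measure S) (A : Subalgebra ℂ C(S, ℂ)) : Subalgebra ℂ (S → ℂ) where
  carrier := {F | MemASigma σ A F}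
  mul_mem' := MemASigma.mul
  add_mem' := MemASigma.add
  algebraMap_mem' := MemASigma.const σ A

lemma null_add {σ : Measure S} {A : Subalgebra ℂ C(S, ℂ)} {F G : weakStarFunctions σ A}
    (hF : ∀ᵐ s ∂σ, (F : S → ℂ) s = 0) (hG : ∀ᵐ s ∂σ, (G : S → ℂ) s = 0) :
    ∀ᵐ s ∂σ, ((F + G : weakStarFunctions σ A) : S → ℂ) s = 0 := by
  filter_upwards [hF, hG] with s h1 h2
  simp [h1, h2]

lemma null_zero {σ : Measure S} {A : Subalgebra ℂ C(S, ℂ)} :
    ∀ᵐ s ∂σ, ((0 : weakStarFunctions σ A) : S → ℂ) s = 0 :=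
  Filter.Eventually.of_forall fun _ => rfl

lemma null_smul {σ : Measure S} {A : Subalgebra ℂ C(S, ℂ)} (F : weakStarFunctions σ A)
    {G : weakStarFunctions σ A} (hG : ∀ᵐ s ∂σ, (G : S → ℂ) s = 0) :
    ∀ᵐ s ∂σ, ((F • G : weakStarFunctions σ A) : S → ℂ) s = 0 := by
  filter_upwards [hG] with s h1
  simp [h1]

/-- The functions vanishing `σ`-almost everywhere form an ideal. -/
def nullIdeal (σ : Measure S) (A : Subalgebra ℂ C(S, ℂ)) : Ideal (weakStarFunctions σ A) where
  carrier := {F | ∀ᵐ s ∂σ, (F : S → ℂ) s = 0}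
  add_mem' := null_add
  zero_mem' := null_zero
  smul_mem' := null_smul

/-- The algebra `A_σ`: the weak-star closure of `A` in `L^∞(σ)`, as an algebra of classes of
bounded measurable functions modulo `σ`-almost everywhere equality. -/
abbrev ASigma (σ : Measure S) (A : Subalgebra ℂ C(S, ℂ)) : Type :=
  weakStarFunctions σ A ⧸ nullIdeal σ A

/-- Condition (i): every continuous character of `A` is evaluation at exactly one point. -/
def CharactersArePoints (A : Subalgebra ℂ C(S, ℂ)) : Prop :=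
  ∀ φ : A →ₐ[ℂ] ℂ, Continuous φ → ∃! s : S, ∀ f : A, φ f = (f : C(S, ℂ)) s

/-- Condition (ii): every `f ∈ A` with `1/f ∈ A` is of the form `exp g` with `g ∈ A`. -/
def InvertiblesAreExponentials (A : Subalgebra ℂ C(S, ℂ)) : Prop :=
  ∀ f ∈ A, (∃ h ∈ A, ∀ s, f s * h s = 1) → ∃ g ∈ A, ∀ s, f s = Complex.exp (g s)

/-- Condition (H1): every real-valued element of `A_σ` is constant almost everywhere. -/
def RealElementsAreConstant (σ : Measure S) (A : Subalgebra ℂ C(S, ℂ)) : Prop :=
  ∀ F : S → ℂ, MemASigma σ A F → (∀ᵐ s ∂σ, (F s).im = 0) → ∃ c : ℂ, ∀ᵐ s ∂σ, F s = c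

/-- Condition (H2): the functions `a + conj b` with `a, b ∈ A` are weak-star dense in
`L^∞(σ)`. -/
def SumIsDense (σ : Measure S) (A : Subalgebra ℂ C(S, ℂ)) : Prop :=
  ∀ F : S → ℂ, IsLInf σ F → InWeakStarClosure σ
    {g | ∃ a ∈ A, ∃ b ∈ A, ∀ s, g s = a s + (starRingEnd ℂ) (b s)} F

end general

/-- `f` is bounded and analytic on the unit disk. -/
def IsHInf (f : Metric.ball (0 : ℂ) 1 → ℂ) : Prop :=
  (∃ F : ℂ → ℂ, DifferentiableOn ℂ F (Metric.ball 0 1) ∧ ∀ z, f z = F z) ∧
    ∃ C : ℝ, ∀ z, ‖f z‖ ≤ C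

lemma IsHInf.mul {f g : Metric.ball (0 : ℂ) 1 → ℂ} (h1 : IsHInf f) (h2 : IsHInf g) :
    IsHInf (f * g) := by
  obtain ⟨⟨F, hF, hf⟩, C, hC⟩ := h1
  obtain ⟨⟨G, hG, hg⟩, D, hD⟩ := h2
  refine ⟨⟨F * G, hF.mul hG, fun z => by simp [hf, hg]⟩, C * D, fun z => ?_⟩
  simp only [Pi.mul_apply, norm_mul]
  exact mul_le_mul (hC z) (hD z) (norm_nonneg _) (le_trans (norm_nonneg _) (hC z))

lemma IsHInf.add {f g : Metric.ball (0 : ℂ) 1 → ℂ} (h1 : IsHInf f) (h2 : IsHInf g) :
    IsHInf (f + g) := by
  obtain ⟨⟨F, hF, hf⟩, C, hC⟩ := h1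
  obtain ⟨⟨G, hG, hg⟩, D, hD⟩ := h2
  refine ⟨⟨F + G, hF.add hG, fun z => by simp [hf, hg]⟩, C + D, fun z => ?_⟩
  simp only [Pi.add_apply]
  exact (norm_add_le _ _).trans (add_le_add (hC z) (hD z))

lemma IsHInf.const (c : ℂ) : IsHInf (algebraMap ℂ (Metric.ball (0 : ℂ) 1 → ℂ) c) :=
  ⟨⟨fun _ => c, differentiableOn_const c, fun _ => rfl⟩, ‖c‖, fun _ => le_of_eq rfl⟩

/-- The algebra `H^∞(𝔻)` of bounded analytic functions on the unit disk. -/
def HInf : Subalgebra ℂ (Metric.ball (0 : ℂ) 1 → ℂ) where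
  carrier := {f | IsHInf f}
  mul_mem' := IsHInf.mul
  add_mem' := IsHInf.add
  algebraMap_mem' := IsHInf.const

lemma log_near_one {S : Type} [TopologicalSpace S] [CompactSpace S] (A : Subalgebra ℂ C(S, ℂ))
    (hA : IsClosed (A : Set C(S, ℂ))) (a : C(S, ℂ)) (ha : a ∈ A) (h1 : ‖a - 1‖ < 1) :
    ∃ g ∈ A, ∀ s, a s = Complex.exp (g s) := by
  set x : C(S, ℂ) := a - 1 with hx
  have hxA : x ∈ A := A.sub_mem ha A.one_mem
  set t : ℕ → C(S, ℂ) := fun n => ((-1 : ℂ) ^ (n + 1) / n) • x ^ n with ht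
  have htA : ∀ n, t n ∈ A := fun n => A.smul_mem (A.pow_mem hxA n) _
  have hsum : Summable t := by
    refine Summable.of_norm_bounded (g := fun n => ‖x‖ ^ n)
      (summable_geometric_of_lt_one (norm_nonneg _) h1) (fun n => ?_)
    rw [ht]
    simp only [norm_smul, norm_div, norm_pow, norm_neg, norm_one, one_pow, Complex.norm_natCast]
    rcases Nat.eq_zero_or_pos n with rfl | hn
    · simp
    · have h3 : (1 : ℝ) / n ≤ 1 := by
        rw [div_le_one (by exact_mod_cast hn)]
        exact_mod_cast hn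
      have h4 : ‖x ^ n‖ ≤ ‖x‖ ^ n := norm_pow_le' x hn
      calc 1 / (n : ℝ) * ‖x ^ n‖ ≤ 1 * ‖x‖ ^ n :=
            mul_le_mul h3 h4 (norm_nonneg _) zero_le_one
        _ = ‖x‖ ^ n := one_mul _
  refine ⟨∑' n, t n, ?_, fun s => ?_⟩
  · refine hA.mem_of_tendsto hsum.hasSum (Filter.Eventually.of_forall fun F => ?_)
    exact A.sum_mem fun n _ => htA n
  · have h5 : HasSum (fun n => t n s) ((∑' n, t n) s) :=
      ContinuousMap.hasSum_apply hsum.hasSum s
    have hz : ‖x s‖ < 1 := lt_of_le_of_lt (x.norm_coe_le_norm s) h1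
    have h6 := Complex.hasSum_taylorSeries_log hz
    have h7 : (fun n => t n s) = fun n : ℕ => (-1) ^ (n + 1) * (x s) ^ n / n := by
      funext n
      simp only [ht, ContinuousMap.smul_apply, ContinuousMap.pow_apply, smul_eq_mul]
      ring
    rw [h7] at h5
    rw [h5.unique h6, Complex.exp_log]
    · simp [hx]
    · intro h0
      have : x s = -1 := by linear_combination h0
      rw [this] at hz
      simp at hz

lemma exp_along_path {S : Type} [TopologicalSpace S] [CompactSpace S] (A : Subalgebra ℂ C(S, ℂ))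
    (hA : IsClosed (A : Set C(S, ℂ))) (u v : unitInterval → C(S, ℂ))
    (hu : Continuous u) (hv : Continuous v) (huA : ∀ t, u t ∈ A) (hvA : ∀ t, v t ∈ A)
    (huv : ∀ t, u t * v t = 1) (h0 : ∃ g ∈ A, ∀ s, u 0 s = Complex.exp (g s)) :
    ∃ g ∈ A, ∀ s, u 1 s = Complex.exp (g s) := by
  set T : Set unitInterval := {t | ∃ g ∈ A, ∀ s, u t s = Complex.exp (g s)} with hT
  have key : ∀ t t' : unitInterval, ‖u t * v t' - 1‖ < 1 → t' ∈ T → t ∈ T := by
    rintro t t' h ⟨g, hg, hg2⟩
    obtain ⟨k, hk, hk2⟩ := log_near_one A hA (u t * v t') (A.mul_mem (huA t) (hvA t')) h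
    refine ⟨g + k, A.add_mem hg hk, fun s => ?_⟩
    have h3 := hk2 s
    have h4 := congrArg (fun f : C(S, ℂ) => f s) (huv t')
    simp only [ContinuousMap.mul_apply, ContinuousMap.one_apply] at h3 h4
    rw [ContinuousMap.add_apply, Complex.exp_add, ← hg2, ← h3]
    calc u t s = u t s * (u t' s * v t' s) := by rw [h4, mul_one]
      _ = u t' s * (u t s * v t' s) := by ring
  have hopen : IsOpen T := by
    rw [isOpen_iff_mem_nhds]
    intro t0 ht0
    have hc : Continuous fun t => ‖u t * v t0 - 1‖ := by fun_prop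
    have : {t | ‖u t * v t0 - 1‖ < 1} ∈ 𝓝 t0 := by
      refine (isOpen_lt hc continuous_const).mem_nhds ?_
      simp [huv t0]
    filter_upwards [this] with t ht
    exact key t t0 ht ht0
  have hclosed : IsClosed T := by
    rw [← isOpen_compl_iff, isOpen_iff_mem_nhds]
    intro t0 ht0
    have hc : Continuous fun t => ‖u t0 * v t - 1‖ := by fun_prop
    have : {t | ‖u t0 * v t - 1‖ < 1} ∈ 𝓝 t0 := by
      refine (isOpen_lt hc continuous_const).mem_nhds ?_
      simp [huv t0]
    filter_upwards [this] with t ht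
    intro htT
    exact ht0 (key t0 t ht htT)
  have huniv : T = Set.univ := IsClopen.eq_univ ⟨hclosed, hopen⟩ ⟨0, h0⟩
  have : (1 : unitInterval) ∈ T := by rw [huniv]; trivial
  exact this


/-- The compact set `{(w, v) : |w| = 1, |v| ≤ 1} ∪ {(w, 0) : |w| ≤ 1}` in `ℂ²`. -/
def SS : Set (ℂ × ℂ) := {p | (‖p.1‖ = 1 ∧ ‖p.2‖ ≤ 1) ∨ (‖p.1‖ ≤ 1 ∧ p.2 = 0)}

lemma isCompact_SS : IsCompact SS := by
  have hclosed : IsClosed SS := by
    have c1 : Continuous fun p : ℂ × ℂ => ‖p.1‖ := by fun_prop
    have c2 : Continuous fun p : ℂ × ℂ => ‖p.2‖ := by fun_prop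
    have c3 : Continuous fun p : ℂ × ℂ => p.2 := by fun_prop
    exact ((isClosed_eq c1 continuous_const).inter (isClosed_le c2 continuous_const)).union
      ((isClosed_le c1 continuous_const).inter (isClosed_eq c3 continuous_const))
  have hb : SS ⊆ Metric.closedBall (0 : ℂ) 1 ×ˢ Metric.closedBall (0 : ℂ) 1 := by
    rintro ⟨w, v⟩ h
    rcases h with ⟨h1, h2⟩ | ⟨h1, h2⟩
    · exact ⟨by simpa using h1.le, by simpa using h2⟩
    · simp only at h1 h2
      subst h2
      exact ⟨by simpa using h1, by simp⟩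
  exact ((isCompact_closedBall _ _).prod (isCompact_closedBall _ _)).of_isClosed_subset hclosed hb

instance : CompactSpace SS := isCompact_iff_compactSpace.mp isCompact_SS

lemma norm_fst_le (p : SS) : ‖p.1.1‖ ≤ 1 := by
  rcases p.2 with h | h
  · exact h.1.le
  · exact h.1

lemma norm_snd_le (p : SS) : ‖p.1.2‖ ≤ 1 := by
  rcases p.2 with h | h
  · exact h.2
  · rw [h.2]; simp

/-- The first coordinate. -/
def W : C(SS, ℂ) := ⟨fun p => p.1.1, by fun_prop⟩

/-- The functions `(w, v) ↦ v * conj(w) ^ k`. -/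
noncomputable def V (k : ℕ) : C(SS, ℂ) := ⟨fun p => p.1.2 * (star p.1.1) ^ k, by fun_prop⟩

/-- The generators of the algebra. -/
noncomputable def gens : Set C(SS, ℂ) := {W} ∪ Set.range V

/-- The uniform algebra generated by `w` and all `v * conj(w) ^ k`. -/
noncomputable def AA : Subalgebra ℂ C(SS, ℂ) := (Algebra.adjoin ℂ gens).topologicalClosure

lemma AA_closed : IsClosed (AA : Set C(SS, ℂ)) := Subalgebra.isClosed_topologicalClosure _

lemma W_mem : W ∈ AA :=
  Subalgebra.le_topologicalClosure _ (Algebra.subset_adjoin (Or.inl rfl))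

lemma V_mem (k : ℕ) : V k ∈ AA :=
  Subalgebra.le_topologicalClosure _ (Algebra.subset_adjoin (Or.inr ⟨k, rfl⟩))

lemma W_mul_V (k : ℕ) : W * V (k + 1) = V k := by
  ext p
  simp only [W, V, ContinuousMap.mul_apply, ContinuousMap.coe_mk]
  rcases p.2 with h | h
  · have h3 : p.1.1 * star p.1.1 = 1 := by
      have := Complex.mul_conj p.1.1
      rw [Complex.normSq_eq_norm_sq, h.1] at this
      simpa using this
    calc p.1.1 * (p.1.2 * star p.1.1 ^ (k + 1)) = p.1.2 * star p.1.1 ^ k * (p.1.1 * star p.1.1) := by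
          ring
      _ = _ := by rw [h3, mul_one]
  · rw [h.2]; simp

lemma norm_V_le (k : ℕ) : ‖V k‖ ≤ 1 := by
  rw [ContinuousMap.norm_le _ zero_le_one]
  intro p
  simp only [V, ContinuousMap.coe_mk, norm_mul, norm_pow, norm_star]
  exact mul_le_one₀ (norm_snd_le p) (by positivity) (pow_le_one₀ (norm_nonneg _) (norm_fst_le p))

lemma norm_W_le : ‖W‖ ≤ 1 := by
  rw [ContinuousMap.norm_le _ zero_le_one]
  intro p
  exact norm_fst_le p

lemma comp_mem (R : C(SS, SS)) (hW : W.comp R ∈ AA) (hV : ∀ k, (V k).comp R ∈ AA) :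
    ∀ a ∈ AA, a.comp R ∈ AA := by
  intro a ha
  let φ : C(SS, ℂ) →ₐ[ℂ] C(SS, ℂ) := ContinuousMap.compRightAlgHom ℂ ℂ R
  have hφ : Continuous φ := ContinuousMap.continuous_precomp R
  have h1 : AA ≤ AA.comap φ := by
    refine Subalgebra.topologicalClosure_minimal ?_ ?_
    · refine Algebra.adjoin_le ?_
      rintro x (rfl | ⟨k, rfl⟩)
      · exact hW
      · exact hV k
    · exact AA_closed.preimage hφ
  exact h1 ha

/-- Two continuous characters of `AA` that agree on the generators are equal. -/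
lemma hom_ext (φ ψ : AA →ₐ[ℂ] ℂ) (hφ : Continuous φ) (hψ : Continuous ψ)
    (hW : φ ⟨W, W_mem⟩ = ψ ⟨W, W_mem⟩) (hV : ∀ k, φ ⟨V k, V_mem k⟩ = ψ ⟨V k, V_mem k⟩) :
    ∀ f, φ f = ψ f := by
  let E : Subalgebra ℂ C(SS, ℂ) := (AlgHom.equalizer φ ψ).map AA.val
  have hE : IsClosed (E : Set C(SS, ℂ)) := by
    have h1 : IsClosed {a : AA | φ a = ψ a} := isClosed_eq hφ hψ
    exact AA_closed.isClosedEmbedding_subtypeVal.isClosedMap _ h1
  have h2 : AA ≤ E := by
    refine Subalgebra.topologicalClosure_minimal ?_ hE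
    refine Algebra.adjoin_le ?_
    rintro x (rfl | ⟨k, rfl⟩)
    · exact ⟨⟨W, W_mem⟩, hW, rfl⟩
    · exact ⟨⟨V k, V_mem k⟩, hV k, rfl⟩
  intro f
  obtain ⟨a, ha, ha2⟩ := h2 f.2
  have : a = f := Subtype.ext ha2
  rw [← this]
  exact ha

/-- Evaluation at a point. -/
noncomputable def ev (s : SS) : AA →ₐ[ℂ] ℂ :=
  (ContinuousMap.evalAlgHom ℂ ℂ s).comp AA.val

lemma ev_apply (s : SS) (f : AA) : ev s f = (f : C(SS, ℂ)) s := rfl

lemma ev_cont (s : SS) : Continuous (ev s) := by
  have : Continuous fun f : AA => (f : C(SS, ℂ)) s := by fun_prop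
  exact this

lemma char_bound (φ : AA →ₐ[ℂ] ℂ) (f : AA) : ‖φ f‖ ≤ ‖(f : C(SS, ℂ))‖ := by
  have : CompleteSpace AA := AA_closed.completeSpace_coe
  have h := AlgHom.norm_apply_le_self_mul_norm_one φ f
  have h1 : ‖(1 : AA)‖ ≤ 1 := by
    change ‖(1 : C(SS, ℂ))‖ ≤ 1
    rw [ContinuousMap.norm_le _ zero_le_one]
    intro p
    simp
  calc ‖φ f‖ ≤ ‖f‖ * ‖(1 : AA)‖ := h
    _ ≤ ‖f‖ * 1 := by gcongr
    _ = ‖(f : C(SS, ℂ))‖ := by rw [mul_one]; rfl

lemma characters (φ : AA →ₐ[ℂ] ℂ) (hφ : Continuous φ) :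
    ∃! s : SS, ∀ f : AA, φ f = (f : C(SS, ℂ)) s := by
  set w0 := φ ⟨W, W_mem⟩ with hw0
  set v := fun k => φ ⟨V k, V_mem k⟩ with hv
  have hw1 : ‖w0‖ ≤ 1 := (char_bound φ _).trans norm_W_le
  have hv1 : ∀ k, ‖v k‖ ≤ 1 := fun k => (char_bound φ _).trans (norm_V_le k)
  have hrel : ∀ k, w0 * v (k + 1) = v k := by
    intro k
    rw [hw0, hv]
    simp only
    rw [← map_mul]
    congr 1
    exact Subtype.ext (W_mul_V k)
  have hex : ∃ s : SS, s.1.1 = w0 ∧ ∀ k, (V k) s = v k := by
    rcases hw1.lt_or_eq with hlt | heq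
    · have hv0 : ∀ k, v k = 0 := by
        intro k
        have h1 : ∀ j, v k = w0 ^ j * v (k + j) := by
          intro j
          induction j with
          | zero => simp
          | succ j ih =>
            rw [ih, ← hrel (k + j)]
            rw [pow_succ, ← add_assoc]
            ring
        have h2 : ∀ j, ‖v k‖ ≤ ‖w0‖ ^ j := by
          intro j
          rw [h1 j, norm_mul, norm_pow]
          calc ‖w0‖ ^ j * ‖v (k + j)‖ ≤ ‖w0‖ ^ j * 1 := by gcongr; exact hv1 _
            _ = _ := mul_one _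
        have h3 : ‖v k‖ ≤ 0 :=
          ge_of_tendsto' (tendsto_pow_atTop_nhds_zero_of_lt_one (norm_nonneg _) hlt) h2
        exact norm_le_zero_iff.mp h3
      refine ⟨⟨(w0, 0), Or.inr ⟨hw1, rfl⟩⟩, rfl, fun k => ?_⟩
      rw [hv0 k]
      simp [V]
    · refine ⟨⟨(w0, v 0), Or.inl ⟨heq, hv1 0⟩⟩, rfl, fun k => ?_⟩
      have h3 : w0 * star w0 = 1 := by
        have := Complex.mul_conj w0
        rw [Complex.normSq_eq_norm_sq, heq] at this
        simpa using this
      induction k with
      | zero => simp [V]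
      | succ k ih =>
        have h4 := hrel k
        simp only [V, ContinuousMap.coe_mk] at ih ⊢
        calc v 0 * star w0 ^ (k + 1) = (v 0 * star w0 ^ k) * star w0 := by ring
          _ = v k * star w0 := by rw [ih]
          _ = (w0 * star w0) * v (k + 1) := by rw [← h4]; ring
          _ = v (k + 1) := by rw [h3, one_mul]
  obtain ⟨s, hs1, hs2⟩ := hex
  refine ⟨s, ?_, ?_⟩
  · intro f
    have := hom_ext φ (ev s) hφ (ev_cont s) (by rw [ev_apply]; exact hs1.symm)
      (fun k => by rw [ev_apply]; exact (hs2 k).symm) f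
    rw [this, ev_apply]
  · intro t ht
    have h1 := ht ⟨W, W_mem⟩
    have h2 := ht ⟨V 0, V_mem 0⟩
    have h3 := hs2 0
    have e1 : t.1.1 = s.1.1 := by rw [hs1, hw0, h1]; rfl
    have e2 : t.1.2 = s.1.2 := by
      have h4 : v 0 = t.1.2 := by rw [hv]; simp only; rw [h2]; simp [V]
      have h5 : v 0 = s.1.2 := by rw [← h3]; simp [V]
      rw [← h4, h5]
    exact Subtype.ext (Prod.ext e1 e2)


/-- The homotopy shrinking the second coordinate. -/
noncomputable def R1 : C(unitInterval × SS, SS) where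
  toFun q := ⟨(q.2.1.1, (q.1 : ℝ) * q.2.1.2), by
    obtain ⟨t, p⟩ := q
    rcases p.2 with h | h
    · left
      refine ⟨h.1, ?_⟩
      simp only [Complex.norm_mul, Complex.norm_real, Real.norm_eq_abs, abs_of_nonneg t.2.1]
      exact mul_le_one₀ t.2.2 (norm_nonneg _) h.2
    · right
      refine ⟨h.1, ?_⟩
      simp [h.2]⟩
  continuous_toFun := by fun_prop

/-- The homotopy shrinking the first coordinate of the disk `v = 0`. -/
noncomputable def R2 : C(unitInterval × SS, SS) where
  toFun q := ⟨((q.1 : ℝ) * q.2.1.1, 0), by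
    obtain ⟨t, p⟩ := q
    right
    refine ⟨?_, rfl⟩
    simp only [Complex.norm_mul, Complex.norm_real, Real.norm_eq_abs, abs_of_nonneg t.2.1]
    exact mul_le_one₀ t.2.2 (norm_nonneg _) (norm_fst_le p)⟩
  continuous_toFun := by fun_prop

/-- slice of a homotopy -/
noncomputable def slice (R : C(unitInterval × SS, SS)) (t : unitInterval) : C(SS, SS) :=
  ⟨fun s => R (t, s), by fun_prop⟩

lemma slice1_mem (t : unitInterval) : ∀ a ∈ AA, a.comp (slice R1 t) ∈ AA := by
  apply comp_mem
  · have : W.comp (slice R1 t) = W := by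
      ext p; rfl
    rw [this]; exact W_mem
  · intro k
    have : (V k).comp (slice R1 t) = ((t : ℝ) : ℂ) • V k := by
      ext p
      simp only [ContinuousMap.comp_apply, V, slice, R1, ContinuousMap.coe_mk,
        ContinuousMap.smul_apply, smul_eq_mul]
      ring
    rw [this]; exact AA.smul_mem (V_mem k) _

lemma slice2_mem (t : unitInterval) : ∀ a ∈ AA, a.comp (slice R2 t) ∈ AA := by
  apply comp_mem
  · have : W.comp (slice R2 t) = ((t : ℝ) : ℂ) • W := by
      ext p
      simp only [ContinuousMap.comp_apply, W, slice, R2, ContinuousMap.coe_mk,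
        ContinuousMap.smul_apply, smul_eq_mul]
    rw [this]; exact AA.smul_mem W_mem _
  · intro k
    have : (V k).comp (slice R2 t) = 0 := by
      ext p
      simp only [ContinuousMap.comp_apply, V, slice, R2, ContinuousMap.coe_mk, zero_mul,
        ContinuousMap.zero_apply]
    rw [this]; exact AA.zero_mem

lemma slice_comp_cont (R : C(unitInterval × SS, SS)) (f : C(SS, ℂ)) :
    Continuous fun t => f.comp (slice R t) := by
  have h : Continuous (f.comp R).curry := (f.comp R).curry.continuous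
  have h2 : (fun t => f.comp (slice R t)) = (f.comp R).curry := by
    funext t
    ext s
    rfl
  rw [h2]
  exact h

lemma slice_exp (R : C(unitInterval × SS, SS)) (hR : ∀ t, ∀ a ∈ AA, a.comp (slice R t) ∈ AA)
    (f h : C(SS, ℂ)) (hf : f ∈ AA) (hh : h ∈ AA) (hfh : f * h = 1)
    (h0 : ∃ g ∈ AA, ∀ s, f (R (0, s)) = Complex.exp (g s)) :
    ∃ g ∈ AA, ∀ s, f (R (1, s)) = Complex.exp (g s) := by
  refine exp_along_path AA AA_closed (fun t => f.comp (slice R t)) (fun t => h.comp (slice R t))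
    (slice_comp_cont R f) (slice_comp_cont R h) (fun t => hR t f hf) (fun t => hR t h hh) ?_ h0
  intro t
  ext s
  have := congrArg (fun f : C(SS, ℂ) => f (R (t, s))) hfh
  exact this

lemma invertible_exp (f : C(SS, ℂ)) (hf : f ∈ AA) (hinv : ∃ h ∈ AA, f * h = 1) :
    ∃ g ∈ AA, ∀ s, f s = Complex.exp (g s) := by
  obtain ⟨h, hh, hfh⟩ := hinv
  have hne : ∀ s, f s ≠ 0 := by
    intro s h0
    have := congrArg (fun f : C(SS, ℂ) => f s) hfh
    simp [h0] at this
  -- the centre
  let o : SS := ⟨(0, 0), Or.inr ⟨by simp, rfl⟩⟩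
  have step0 : ∃ g ∈ AA, ∀ s, f (R2 (0, s)) = Complex.exp (g s) := by
    refine ⟨algebraMap ℂ _ (Complex.log (f o)), AA.algebraMap_mem _, fun s => ?_⟩
    have : R2 (0, s) = o := by
      apply Subtype.ext
      simp [R2, o]
    rw [this]
    simp [Complex.exp_log (hne o)]
  have step1 : ∃ g ∈ AA, ∀ s, f (R2 (1, s)) = Complex.exp (g s) :=
    slice_exp R2 slice2_mem f h hf hh hfh step0
  have step2 : ∃ g ∈ AA, ∀ s, f (R1 (0, s)) = Complex.exp (g s) := by
    obtain ⟨g, hg, hg2⟩ := step1
    refine ⟨g, hg, fun s => ?_⟩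
    rw [← hg2]
    congr 1
    apply Subtype.ext
    simp [R1, R2]
  have step3 := slice_exp R1 slice1_mem f h hf hh hfh step2
  obtain ⟨g, hg, hg2⟩ := step3
  refine ⟨g, hg, fun s => ?_⟩
  rw [← hg2]
  congr 1
  apply Subtype.ext
  simp [R1]

lemma invertible_exp' (f : C(SS, ℂ)) (hf : f ∈ AA) (hinv : ∃ h ∈ AA, ∀ s, f s * h s = 1) :
    ∃ g ∈ AA, ∀ s, f s = Complex.exp (g s) := by
  obtain ⟨h, hh, hfh⟩ := hinv
  exact invertible_exp f hf ⟨h, hh, ContinuousMap.ext hfh⟩

/-- The two-dimensional torus. -/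
abbrev K : Type := UnitAddTorus (Fin 2)

open UnitAddTorus

/-- Haar measure on the torus. -/
noncomputable def mu : Measure K := Measure.addHaar

instance : IsFiniteMeasure mu := by unfold mu; infer_instance
instance : mu.IsAddLeftInvariant := by unfold mu; infer_instance
instance : mu.IsOpenPosMeasure := by unfold mu; infer_instance

lemma integral_mFourier (n : Fin 2 → ℤ) (hn : n ≠ 0) : ∫ x, mFourier n x ∂mu = 0 := by
  obtain ⟨i, hi⟩ := Function.ne_iff.mp hn
  simp only [Pi.zero_apply] at hi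
  let g : K := Pi.single i (((1 : ℝ) / 2 / (n i) : ℝ) : UnitAddCircle)
  have key : ∀ x : K, mFourier n (g + x) = - mFourier n x := by
    intro x
    simp only [mFourier, ContinuousMap.coe_mk]
    rw [← Finset.mul_prod_erase Finset.univ _ (Finset.mem_univ i),
      ← Finset.mul_prod_erase Finset.univ (fun i => fourier (n i) (x i)) (Finset.mem_univ i)]
    have h1 : fourier (n i) ((g + x) i) = - fourier (n i) (x i) := by
      have := fourier_add_half_inv_index hi (T := 1) zero_lt_one (x i)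
      rw [← this]
      congr 1
      simp [g, add_comm]
    have h2 : ∏ j ∈ Finset.univ.erase i, fourier (n j) ((g + x) j) =
        ∏ j ∈ Finset.univ.erase i, fourier (n j) (x j) := by
      refine Finset.prod_congr rfl fun j hj => ?_
      have : j ≠ i := Finset.ne_of_mem_erase hj
      simp [g, this]
    rw [h1, h2]
    ring
  have h3 : ∫ x, mFourier n (g + x) ∂mu = ∫ x, mFourier n x ∂mu :=
    integral_add_left_eq_self (fun x => mFourier n x) g
  simp_rw [key] at h3
  rw [integral_neg] at h3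
  have h4 : (2 : ℂ) * ∫ x, mFourier n x ∂mu = 0 := by linear_combination -h3
  simpa using h4

lemma unique_K (h : K → ℂ) (hh : Integrable h mu)
    (h0 : ∀ n : Fin 2 → ℤ, ∫ x, h x * mFourier n x ∂mu = 0) : h =ᵐ[mu] 0 := by
  have hint : ∀ g : C(K, ℂ), Integrable (fun x => h x * g x) mu := by
    intro g
    exact hh.mul_bdd (c := ‖g‖) g.continuous.aestronglyMeasurable
      (Filter.Eventually.of_forall fun x => g.norm_coe_le_norm x)
  -- the functional
  let L : C(K, ℂ) →ₗ[ℂ] ℂ :=
    { toFun := fun g => ∫ x, h x * g x ∂mu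
      map_add' := fun g k => by
        rw [← integral_add (hint g) (hint k)]
        refine integral_congr_ae (Filter.Eventually.of_forall fun x => ?_)
        simp only [ContinuousMap.add_apply]; ring
      map_smul' := fun c g => by
        rw [RingHom.id_apply, smul_eq_mul, ← integral_const_mul]
        refine integral_congr_ae (Filter.Eventually.of_forall fun x => ?_)
        simp only [ContinuousMap.smul_apply, smul_eq_mul]; ring }
  let L' : C(K, ℂ) →L[ℂ] ℂ := L.mkContinuous (∫ x, ‖h x‖ ∂mu) (by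
    intro g
    calc ‖∫ x, h x * g x ∂mu‖ ≤ ∫ x, ‖h x‖ * ‖g‖ ∂mu := by
          refine norm_integral_le_of_norm_le (hh.norm.mul_const _)
            (Filter.Eventually.of_forall fun x => ?_)
          rw [norm_mul]
          gcongr
          exact g.norm_coe_le_norm x
      _ = _ := by rw [integral_mul_const])
  have hL : ∀ g : C(K, ℂ), ∫ x, h x * g x ∂mu = 0 := by
    intro g
    have h1 : (Submodule.span ℂ (Set.range (mFourier (d := Fin 2)))).topologicalClosure ≤
        LinearMap.ker L'.toLinearMap := by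
      refine Submodule.topologicalClosure_minimal _ ?_ ?_
      · rw [Submodule.span_le]
        rintro _ ⟨n, rfl⟩
        exact h0 n
      · exact L'.isClosed_ker
    rw [span_mFourier_closure_eq_top] at h1
    exact h1 (Submodule.mem_top (x := g))
  refine ae_eq_zero_of_forall_setIntegral_isClosed_eq_zero hh fun s hs => ?_
  obtain ⟨δ, hδ, hδpos, hδlim⟩ := exists_seq_strictAnti_tendsto (0 : ℝ)
  let g : ℕ → C(K, ℂ) := fun m =>
    ⟨fun x => (((thickenedIndicator (hδpos m) s x : NNReal) : ℝ) : ℂ), by fun_prop⟩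
  have hlim : Filter.Tendsto (fun m => ∫ x, h x * g m x ∂mu) Filter.atTop
      (𝓝 (∫ x, h x * (s.indicator (fun _ => (1 : ℂ)) x) ∂mu)) := by
    refine tendsto_integral_of_dominated_convergence (fun x => ‖h x‖) ?_ hh.norm ?_ ?_
    · intro m
      exact (hint (g m)).aestronglyMeasurable
    · intro m
      refine Filter.Eventually.of_forall fun x => ?_
      rw [norm_mul]
      have h5 : ‖g m x‖ ≤ 1 := by
        simp only [g, ContinuousMap.coe_mk, Complex.norm_real, Real.norm_eq_abs, NNReal.abs_eq]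
        exact_mod_cast thickenedIndicator_le_one (hδpos m) s x
      calc ‖h x‖ * ‖g m x‖ ≤ ‖h x‖ * 1 := by gcongr
        _ = ‖h x‖ := mul_one _
    · refine Filter.Eventually.of_forall fun x => ?_
      refine Filter.Tendsto.const_mul _ ?_
      have h6 := thickenedIndicator_tendsto_indicator_closure hδpos hδlim s
      rw [hs.closure_eq] at h6
      have h7 := (tendsto_pi_nhds.mp h6) x
      have h8 : Continuous fun y : NNReal => ((y : ℝ) : ℂ) := by fun_prop
      have h9 := (h8.tendsto _).comp h7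
      have h10 : (((s.indicator (fun _ => (1 : NNReal)) x : NNReal) : ℝ) : ℂ) =
          s.indicator (fun _ => (1 : ℂ)) x := by
        by_cases hx : x ∈ s <;> simp [hx]
      rw [h10] at h9
      exact h9
  have hz : (fun m => ∫ x, h x * g m x ∂mu) = fun _ => (0 : ℂ) := by
    funext m
    exact hL (g m)
  rw [hz] at hlim
  have h11 := tendsto_nhds_unique hlim tendsto_const_nhds
  rw [← integral_indicator hs.measurableSet, ← h11]
  refine integral_congr_ae (Filter.Eventually.of_forall fun x => ?_)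
  by_cases hx : x ∈ s <;> simp [hx]

/-- The embedding of the torus in `SS`. -/
noncomputable def iota : C(K, SS) where
  toFun x := ⟨(fourier 1 (x 0), fourier 1 (x 1)), by
    left
    constructor
    · simp only [fourier_one]; exact Circle.norm_coe _
    · simp only [fourier_one]; exact (Circle.norm_coe _).le⟩
  continuous_toFun := by fun_prop

lemma iota_injective : Function.Injective iota := by
  intro x y hxy
  have h := congrArg Subtype.val hxy
  simp only [iota, ContinuousMap.coe_mk, Prod.mk.injEq, fourier_one, Circle.coe_inj] at h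
  funext i
  fin_cases i
  · exact AddCircle.injective_toCircle one_ne_zero h.1
  · exact AddCircle.injective_toCircle one_ne_zero h.2

lemma iota_emb : MeasurableEmbedding iota :=
  (iota.continuous.isClosedEmbedding iota_injective).measurableEmbedding

/-- The image of Haar measure. -/
noncomputable def sigma : Measure SS := Measure.map iota mu

instance : IsFiniteMeasure sigma := by unfold sigma; infer_instance

lemma integral_sigma (f : SS → ℂ) : ∫ s, f s ∂sigma = ∫ x, f (iota x) ∂mu :=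
  iota_emb.integral_map f

lemma ae_sigma {p : SS → Prop} : (∀ᵐ s ∂sigma, p s) ↔ ∀ᵐ x ∂mu, p (iota x) :=
  iota_emb.ae_map_iff

lemma integrable_sigma {f : SS → ℂ} : Integrable f sigma ↔ Integrable (fun x => f (iota x)) mu :=
  iota_emb.integrable_map_iff

/-- signed powers, equal to honest powers on the unit circle -/
noncomputable def spow (f : C(SS, ℂ)) : ℤ → C(SS, ℂ)
  | Int.ofNat n => f ^ n
  | Int.negSucc n => (star f) ^ (n + 1)

/-- The monomials as continuous functions on `SS`. -/
noncomputable def mon (n : Fin 2 → ℤ) : C(SS, ℂ) := spow W (n 0) * spow (V 0) (n 1)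

lemma fourier_pow (n : ℕ) (y : UnitAddCircle) : (fourier 1 y : ℂ) ^ n = fourier (n : ℤ) y := by
  induction n with
  | zero => simp
  | succ n ih =>
    rw [pow_succ, ih]
    push_cast
    rw [fourier_add]

lemma spow_apply (f : C(SS, ℂ)) (n : ℤ) (s : SS) (y : UnitAddCircle) (h : f s = fourier 1 y) :
    spow f n s = fourier n y := by
  cases n with
  | ofNat n =>
    simp only [spow, ContinuousMap.pow_apply, h, Int.ofNat_eq_natCast]
    exact fourier_pow n y
  | negSucc n =>
    simp only [spow, ContinuousMap.pow_apply, ContinuousMap.star_apply, h]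
    rw [Int.negSucc_eq, fourier_neg]
    have := fourier_pow (n + 1) y
    push_cast at this ⊢
    rw [← this, map_pow]
    rfl

lemma mon_iota (n : Fin 2 → ℤ) (x : K) : mon n (iota x) = mFourier n x := by
  simp only [mon, ContinuousMap.mul_apply, mFourier, ContinuousMap.coe_mk, Fin.prod_univ_two]
  rw [spow_apply W (n 0) (iota x) (x 0) rfl, spow_apply (V 0) (n 1) (iota x) (x 1)]
  simp [V, iota]

/-- strictly positive exponents in the lexicographic order (second coordinate first) -/
def Pos (n : Fin 2 → ℤ) : Prop := 0 < n 1 ∨ (n 1 = 0 ∧ 0 < n 0)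

/-- nonnegative exponents -/
def NonNeg (n : Fin 2 → ℤ) : Prop := 0 < n 1 ∨ (n 1 = 0 ∧ 0 ≤ n 0)

lemma gens_iota {a : C(SS, ℂ)} (ha : a ∈ Submonoid.closure gens) :
    ∃ m, NonNeg m ∧ ∀ x, a (iota x) = mFourier m x := by
  induction ha using Submonoid.closure_induction with
  | mem a ha =>
    rcases ha with rfl | ⟨k, rfl⟩
    · refine ⟨![1, 0], Or.inr (by simp), fun x => ?_⟩
      simp [W, iota, mFourier]
    · refine ⟨![-k, 1], Or.inl (by simp), fun x => ?_⟩
      simp only [V, iota, mFourier, ContinuousMap.coe_mk, Fin.prod_univ_two]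
      simp only [Matrix.cons_val_zero, Matrix.cons_val_one, fourier_neg]
      rw [← fourier_pow k, map_pow]
      rw [mul_comm]
      rfl
  | one => exact ⟨0, Or.inr (by simp), fun x => by simp [mFourier_zero]⟩
  | mul a b _ _ ha hb =>
    obtain ⟨m, hm, hm2⟩ := ha
    obtain ⟨n, hn, hn2⟩ := hb
    refine ⟨m + n, ?_, fun x => ?_⟩
    · rcases hm with h | h <;> rcases hn with h' | h'
      · left; simp only [Pi.add_apply]; omega
      · left; simp only [Pi.add_apply]; omega
      · left; simp only [Pi.add_apply]; omega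
      · right; simp only [Pi.add_apply]; omega
    · rw [mFourier_add, ContinuousMap.mul_apply, hm2, hn2]

lemma AA_orth (a : C(SS, ℂ)) (ha : a ∈ AA) (n : Fin 2 → ℤ) (hn : Pos n) :
    ∫ x, a (iota x) * mFourier n x ∂mu = 0 := by
  have hint : ∀ a : C(SS, ℂ), Integrable (fun x => a (iota x) * mFourier n x) mu := by
    intro a
    have : Continuous fun x => a (iota x) * mFourier n x := by fun_prop
    exact this.integrable_of_hasCompactSupport (HasCompactSupport.of_compactSpace _)
  let L : C(SS, ℂ) →ₗ[ℂ] ℂ :=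
    { toFun := fun g => ∫ x, g (iota x) * mFourier n x ∂mu
      map_add' := fun g k => by
        rw [← integral_add (hint g) (hint k)]
        refine integral_congr_ae (Filter.Eventually.of_forall fun x => ?_)
        simp only [ContinuousMap.add_apply]; ring
      map_smul' := fun c g => by
        rw [RingHom.id_apply, smul_eq_mul, ← integral_const_mul]
        refine integral_congr_ae (Filter.Eventually.of_forall fun x => ?_)
        simp only [ContinuousMap.smul_apply, smul_eq_mul]; ring }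
  let L' : C(SS, ℂ) →L[ℂ] ℂ := L.mkContinuous (mu.real Set.univ) (by
    intro g
    calc ‖∫ x, g (iota x) * mFourier n x ∂mu‖ ≤ ∫ x : K, ‖g‖ ∂mu := by
          refine norm_integral_le_of_norm_le (integrable_const _)
            (Filter.Eventually.of_forall fun x => ?_)
          rw [norm_mul]
          have h1 : ‖mFourier n x‖ ≤ 1 := ((mFourier n).norm_coe_le_norm x).trans mFourier_norm.le
          calc _ ≤ ‖g‖ * 1 := by
                gcongr
                exact g.norm_coe_le_norm _
            _ = _ := mul_one _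
      _ = _ := by rw [integral_const, smul_eq_mul])
  have h1 : (Submodule.span ℂ (Submonoid.closure gens : Set C(SS, ℂ))).topologicalClosure ≤
      LinearMap.ker L'.toLinearMap := by
    refine Submodule.topologicalClosure_minimal _ ?_ L'.isClosed_ker
    rw [Submodule.span_le]
    intro b hb
    obtain ⟨m, hm, hm2⟩ := gens_iota hb
    change ∫ x, b (iota x) * mFourier n x ∂mu = 0
    simp_rw [hm2, ← mFourier_add]
    apply integral_mFourier
    intro h
    have e0 := congrFun h 0
    have e1 := congrFun h 1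
    simp only [Pi.add_apply, Pi.zero_apply] at e0 e1
    rcases hm with h | h <;> rcases hn with h' | h' <;> omega
  have h2 : a ∈ (Submodule.span ℂ (Submonoid.closure gens : Set C(SS, ℂ))).topologicalClosure := by
    rw [← Algebra.adjoin_eq_span]
    exact ha
  exact h1 h2

lemma wsc_orth (F : SS → ℂ) (hF : MemASigma sigma AA F) (n : Fin 2 → ℤ) (hn : Pos n) :
    ∫ s, F s * mon n s ∂sigma = 0 := by
  obtain ⟨⟨hm, hb⟩, hc⟩ := hF
  have hmi : Integrable (fun s => mon n s) sigma :=
    (mon n).continuous.integrable_of_hasCompactSupport (HasCompactSupport.of_compactSpace _)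
  refine norm_le_zero_iff.mp (le_of_forall_pos_lt_add fun ε hε => ?_)
  obtain ⟨g, ⟨a, ha, hg⟩, h2⟩ := hc 1 (fun _ s => mon n s) (fun _ => hmi) ε hε
  have h3 := h2 0
  have h4 : ∫ s, (F s - g s) * mon n s ∂sigma = ∫ s, F s * mon n s ∂sigma := by
    have h5 : ∫ s, a s * mon n s ∂sigma = 0 := by
      rw [integral_sigma]
      simp_rw [mon_iota]
      exact AA_orth a ha n hn
    have h6 : ∀ s, (F s - g s) * mon n s = F s * mon n s - a s * mon n s := by
      intro s; rw [hg]; ring
    simp_rw [h6]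
    rw [integral_sub (integrable_bdd_mul sigma hm hb hmi)
      (integrable_bdd_mul sigma (cont_meas sigma a) (cont_bdd sigma a) hmi), h5, sub_zero]
  rw [h4] at h3
  simpa using h3

lemma mon_neg_iota (n : Fin 2 → ℤ) (x : K) :
    mon (-n) (iota x) = (starRingEnd ℂ) (mon n (iota x)) := by
  rw [mon_iota, mon_iota, mFourier_neg]

lemma pos_cases (n : Fin 2 → ℤ) (hn : n ≠ 0) : Pos n ∨ Pos (-n) := by
  have h : n 0 ≠ 0 ∨ n 1 ≠ 0 := by
    by_contra hc
    push Not at hc
    exact hn (by funext i; fin_cases i; exacts [hc.1, hc.2])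
  unfold Pos
  simp only [Pi.neg_apply]
  omega

lemma unique_sigma (h : SS → ℂ) (hh : Integrable h sigma)
    (h0 : ∀ n : Fin 2 → ℤ, ∫ s, h s * mon n s ∂sigma = 0) : h =ᵐ[sigma] 0 := by
  have h1 : (fun x => h (iota x)) =ᵐ[mu] 0 := by
    refine unique_K _ (integrable_sigma.mp hh) fun n => ?_
    have := h0 n
    rw [integral_sigma] at this
    simp_rw [mon_iota] at this
    exact this
  exact ae_sigma.mpr h1

/-- (H1) -/
lemma real_const (F : SS → ℂ) (hF : MemASigma sigma AA F)
    (hreal : ∀ᵐ s ∂sigma, (F s).im = 0) : ∃ c : ℂ, ∀ᵐ s ∂sigma, F s = c := by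
  have hF' := hF
  obtain ⟨⟨hm, hb⟩, hc⟩ := hF'
  have hzero : ∀ n : Fin 2 → ℤ, n ≠ 0 → ∫ s, F s * mon n s ∂sigma = 0 := by
    intro n hn
    rcases pos_cases n hn with h | h
    · exact wsc_orth F hF n h
    · have h1 := wsc_orth F hF (-n) h
      have h2 : ∫ s, (starRingEnd ℂ) (F s * mon (-n) s) ∂sigma = 0 := by
        rw [integral_conj, h1, map_zero]
      rw [← h2]
      rw [integral_sigma, integral_sigma]
      refine integral_congr_ae ?_
      filter_upwards [ae_sigma.mp hreal] with x hx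
      rw [map_mul, Complex.conj_eq_iff_im.mpr hx, mon_neg_iota]
      simp
  have hFi : Integrable F sigma := by
    have := integrable_bdd_mul sigma hm hb (integrable_const (1 : ℂ))
    simpa using this
  have hmon0 : ∀ s, mon 0 s = 1 := by
    intro s
    have e : ∀ f : C(SS, ℂ), spow f 0 = 1 := by
      intro f
      change f ^ 0 = 1
      exact pow_zero f
    simp [mon, e]
  set c : ℂ := (∫ s, F s ∂sigma) / (sigma.real Set.univ : ℂ) with hcdef
  have hmass : (sigma.real Set.univ : ℂ) ≠ 0 := by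
    have h1 : sigma Set.univ ≠ 0 := by
      unfold sigma
      rw [iota_emb.map_apply]
      simp only [Set.preimage_univ]
      exact (isOpen_univ.measure_pos mu Set.univ_nonempty).ne'
    have h2 : sigma.real Set.univ ≠ 0 := by
      rw [Measure.real, ENNReal.toReal_ne_zero]
      exact ⟨h1, measure_ne_top _ _⟩
    exact_mod_cast h2
  have hmoni : ∀ n, Integrable (fun s => mon n s) sigma := fun n =>
    (mon n).continuous.integrable_of_hasCompactSupport (HasCompactSupport.of_compactSpace _)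
  have hmonint : ∀ n : Fin 2 → ℤ, n ≠ 0 → ∫ s, mon n s ∂sigma = 0 := by
    intro n hn
    rw [integral_sigma]
    simp_rw [mon_iota]
    exact integral_mFourier n hn
  refine ⟨c, ?_⟩
  have h3 : (fun s => F s - c) =ᵐ[sigma] 0 := by
    refine unique_sigma _ (hFi.sub (integrable_const c)) fun n => ?_
    have h4 : ∀ s, (F s - c) * mon n s = F s * mon n s - c * mon n s := fun s => by ring
    simp_rw [h4]
    rw [integral_sub (integrable_bdd_mul sigma hm hb (hmoni n)) ((hmoni n).const_mul c),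
      integral_const_mul]
    by_cases hn : n = 0
    · subst hn
      simp_rw [hmon0]
      simp only [mul_one, integral_const]
      rw [hcdef]
      rw [Complex.real_smul, mul_one, div_mul_cancel₀ _ hmass, sub_self]
    · rw [hzero n hn, hmonint n hn]; simp
  filter_upwards [h3] with s hs
  simpa [sub_eq_zero] using hs

/-- If the annihilator of a space of continuous functions in `L^1` is trivial, then the space is
weak-star dense in `L^∞`. -/
lemma dense_of_annihilator (M : Submodule ℂ C(SS, ℂ))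
    (hM : ∀ h : SS → ℂ, Integrable h sigma → (∀ a ∈ M, ∫ s, a s * h s ∂sigma = 0) →
      h =ᵐ[sigma] 0)
    (F : SS → ℂ) (hm : AEStronglyMeasurable F sigma) (hb : ∃ C : ℝ, ∀ᵐ s ∂sigma, ‖F s‖ ≤ C) :
    InWeakStarClosure sigma {g | ∃ a ∈ M, ∀ s, g s = a s} F := by
  intro n h hh ε hε
  have hint : ∀ (a : C(SS, ℂ)) (i : Fin n), Integrable (fun s => a s * h i s) sigma :=
    fun a i => integrable_bdd_mul sigma (cont_meas sigma a) (cont_bdd sigma a) (hh i)
  let T : C(SS, ℂ) →ₗ[ℂ] (Fin n → ℂ) :=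
    { toFun := fun a i => ∫ s, a s * h i s ∂sigma
      map_add' := fun a b => by
        funext i
        rw [Pi.add_apply, ← integral_add (hint a i) (hint b i)]
        refine integral_congr_ae (Filter.Eventually.of_forall fun x => ?_)
        simp only [ContinuousMap.add_apply]; ring
      map_smul' := fun c a => by
        funext i
        rw [RingHom.id_apply, Pi.smul_apply, smul_eq_mul, ← integral_const_mul]
        refine integral_congr_ae (Filter.Eventually.of_forall fun x => ?_)
        simp only [ContinuousMap.smul_apply, smul_eq_mul]; ring }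
  let y : Fin n → ℂ := fun i => ∫ s, F s * h i s ∂sigma
  have hy : y ∈ M.map T := by
    by_contra hny
    obtain ⟨f, hf1, hf2⟩ := Submodule.exists_le_ker_of_notMem hny
    have hf3 : ∀ x : Fin n → ℂ, f x = ∑ i, x i * f (fun j => if i = j then 1 else 0) := by
      intro x
      simpa using LinearMap.pi_apply_eq_sum_univ f x
    set c : Fin n → ℂ := fun i => f (fun j => if i = j then 1 else 0) with hc
    have hk : (fun s => ∑ i, c i * h i s) =ᵐ[sigma] 0 := by
      refine hM _ (integrable_finsetSum _ fun i _ => (hh i).const_mul (c i)) fun a ha => ?_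
      have h1 : f (T a) = 0 := hf2 (Submodule.mem_map_of_mem ha)
      rw [hf3] at h1
      change ∑ i, (∫ s, a s * h i s ∂sigma) * c i = 0 at h1
      rw [← h1]
      simp_rw [← integral_mul_const]
      rw [← integral_finsetSum _ (fun i _ => (hint a i).mul_const (c i))]
      refine integral_congr_ae (Filter.Eventually.of_forall fun s => ?_)
      simp only [Finset.mul_sum]
      exact Finset.sum_congr rfl fun i _ => by ring
    apply hf1
    rw [hf3]
    change ∑ i, (∫ s, F s * h i s ∂sigma) * c i = 0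
    simp_rw [← integral_mul_const]
    rw [← integral_finsetSum _ (fun i _ => (integrable_bdd_mul sigma hm hb (hh i)).mul_const (c i))]
    have h2 : (fun s => ∑ i, F s * h i s * c i) =ᵐ[sigma] fun _ => 0 := by
      filter_upwards [hk] with s hs
      have : ∑ i, F s * h i s * c i = F s * ∑ i, c i * h i s := by
        rw [Finset.mul_sum]
        exact Finset.sum_congr rfl fun i _ => by ring
      rw [this, hs]
      simp
    rw [integral_congr_ae h2]
    simp
  obtain ⟨a, ha, ha2⟩ := hy
  refine ⟨fun s => a s, ⟨a, ha, fun s => rfl⟩, fun i => ?_⟩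
  have h1 : ∀ s, (F s - a s) * h i s = F s * h i s - a s * h i s := fun s => by ring
  simp_rw [h1]
  rw [integral_sub (integrable_bdd_mul sigma hm hb (hh i)) (hint a i)]
  have h2 := congrFun ha2 i
  change ∫ s, a s * h i s ∂sigma = ∫ s, F s * h i s ∂sigma at h2
  rw [h2, sub_self, norm_zero]
  exact hε

/-- The space `A + conj A` as a subspace of `C(S)`. -/
noncomputable def sumSpace : Submodule ℂ C(SS, ℂ) where
  carrier := {g | ∃ a ∈ AA, ∃ b ∈ AA, g = a + star b}
  add_mem' := by
    rintro g g' ⟨a, ha, b, hb, rfl⟩ ⟨a', ha', b', hb', rfl⟩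
    refine ⟨a + a', AA.add_mem ha ha', b + b', AA.add_mem hb hb', ?_⟩
    rw [star_add]; abel
  zero_mem' := ⟨0, AA.zero_mem, 0, AA.zero_mem, by simp⟩
  smul_mem' := by
    rintro c g ⟨a, ha, b, hb, rfl⟩
    refine ⟨c • a, AA.smul_mem ha c, star c • b, AA.smul_mem hb _, ?_⟩
    rw [star_smul, star_star, smul_add]

lemma exists_pos_mem (n : Fin 2 → ℤ) (hn : NonNeg n) :
    ∃ a ∈ AA, ∀ x, a (iota x) = mFourier n x := by
  have hW : ∀ x, W (iota x) = fourier 1 (x 0) := fun x => rfl
  have hV : ∀ k x, V k (iota x) = fourier 1 (x 1) * star (fourier 1 (x 0) : ℂ) ^ k :=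
    fun k x => rfl
  rcases hn with h | ⟨h, h0⟩
  · obtain ⟨m, hm⟩ : ∃ m : ℕ, n 1 = m + 1 := ⟨(n 1 - 1).toNat, by omega⟩
    rcases le_or_gt 0 (n 0) with h0 | h0
    · obtain ⟨k, hk⟩ : ∃ k : ℕ, n 0 = k := ⟨(n 0).toNat, by omega⟩
      refine ⟨W ^ k * V 0 ^ (m + 1), AA.mul_mem (AA.pow_mem W_mem k) (AA.pow_mem (V_mem 0) _),
        fun x => ?_⟩
      simp only [ContinuousMap.mul_apply, ContinuousMap.pow_apply, hW, hV, pow_zero, mul_one,
        mFourier, ContinuousMap.coe_mk, Fin.prod_univ_two]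
      rw [fourier_pow, fourier_pow, hm, hk]
      push_cast
      rfl
    · obtain ⟨k, hk⟩ : ∃ k : ℕ, n 0 = -k := ⟨(-n 0).toNat, by omega⟩
      refine ⟨V k * V 0 ^ m, AA.mul_mem (V_mem k) (AA.pow_mem (V_mem 0) _), fun x => ?_⟩
      simp only [ContinuousMap.mul_apply, ContinuousMap.pow_apply, hV, pow_zero, mul_one,
        mFourier, ContinuousMap.coe_mk, Fin.prod_univ_two]
      rw [hm, hk, fourier_neg, ← fourier_pow k, fourier_add, ← fourier_pow m, map_pow]
      change _ * (star (fourier 1 (x 0) : ℂ)) ^ k * _ = (star (fourier 1 (x 0) : ℂ)) ^ k * _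
      ring
  · obtain ⟨k, hk⟩ : ∃ k : ℕ, n 0 = k := ⟨(n 0).toNat, by omega⟩
    refine ⟨W ^ k, AA.pow_mem W_mem k, fun x => ?_⟩
    simp only [ContinuousMap.pow_apply, hW, mFourier, ContinuousMap.coe_mk, Fin.prod_univ_two]
    rw [h, hk, fourier_pow]
    simp

lemma nonNeg_cases (n : Fin 2 → ℤ) : NonNeg n ∨ NonNeg (-n) := by
  unfold NonNeg
  simp only [Pi.neg_apply]
  omega

/-- (H2) -/
lemma sum_dense (F : SS → ℂ) (hF : IsLInf sigma F) :
    InWeakStarClosure sigma
      {g | ∃ a ∈ AA, ∃ b ∈ AA, ∀ s, g s = a s + (starRingEnd ℂ) (b s)} F := by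
  obtain ⟨hm, hb⟩ := hF
  have h1 := dense_of_annihilator sumSpace ?_ F hm hb
  · intro n h hh ε hε
    obtain ⟨g, ⟨c, ⟨a, ha, b, hb, rfl⟩, hg⟩, h2⟩ := h1 n h hh ε hε
    exact ⟨g, ⟨a, ha, b, hb, hg⟩, h2⟩
  · intro h hh h0
    refine unique_sigma h hh fun n => ?_
    rw [integral_sigma]
    simp_rw [mon_iota]
    rcases nonNeg_cases n with hn | hn
    · obtain ⟨a, ha, ha2⟩ := exists_pos_mem n hn
      have h3 := h0 a ⟨a, ha, 0, AA.zero_mem, by simp⟩
      rw [integral_sigma] at h3
      rw [← h3]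
      refine integral_congr_ae (Filter.Eventually.of_forall fun x => ?_)
      simp only [ha2, mul_comm]
    · obtain ⟨a, ha, ha2⟩ := exists_pos_mem (-n) hn
      have h3 := h0 (star a) ⟨0, AA.zero_mem, a, ha, by simp⟩
      rw [integral_sigma] at h3
      rw [← h3]
      refine integral_congr_ae (Filter.Eventually.of_forall fun x => ?_)
      simp only [ContinuousMap.star_apply, ha2]
      rw [mFourier_neg]
      simp [mul_comm]

/-- The canonical map from `A` to `A_σ`. -/
noncomputable def toWS : AA →ₐ[ℂ] ASigma sigma AA :=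
  (Ideal.Quotient.mkₐ ℂ (nullIdeal sigma AA)).comp
    ((((ContinuousMap.coeFnAlgHom ℂ).comp AA.val)).codRestrict (weakStarFunctions sigma AA) (by
      intro a
      refine ⟨⟨cont_meas sigma a.1, cont_bdd sigma a.1⟩, ?_⟩
      intro n h hh ε hε
      refine ⟨fun s => a.1 s, ⟨a.1, a.2, fun s => rfl⟩, fun i => ?_⟩
      have : ∀ s, (((ContinuousMap.coeFnAlgHom ℂ).comp AA.val) a s - a.1 s) * h i s = 0 := by
        intro s
        simp
      simp_rw [this]
      simpa using hε))

lemma toWS_eq_iff (a b : AA) : toWS a = toWS b ↔ ∀ᵐ s ∂sigma, a.1 s = b.1 s := by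
  rw [← sub_eq_zero, ← map_sub]
  unfold toWS
  rw [AlgHom.comp_apply, Ideal.Quotient.mkₐ_eq_mk, Ideal.Quotient.eq_zero_iff_mem]
  change (∀ᵐ s ∂sigma, (a - b).1 s = 0) ↔ _
  refine Filter.eventually_congr (Filter.Eventually.of_forall fun s => ?_)
  change a.1 s - b.1 s = 0 ↔ _
  rw [sub_eq_zero]

/-- Evaluation on `H^∞`. -/
noncomputable def evH (z : Metric.ball (0 : ℂ) 1) : HInf →ₐ[ℂ] ℂ :=
  (Pi.evalAlgHom ℂ (fun _ => ℂ) z).comp HInf.val

lemma no_iso (Φ : ASigma sigma AA ≃ₐ[ℂ] HInf) : False := by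
  let ψ : Metric.ball (0 : ℂ) 1 → (AA →ₐ[ℂ] ℂ) := fun z => (evH z).comp (Φ.toAlgHom.comp toWS)
  have hψ : ∀ z a, ψ z a = (Φ (toWS a)).1 z := fun z a => rfl
  have hbound : ∀ z a, ‖ψ z a‖ ≤ ‖a.1‖ := fun z a => char_bound (ψ z) a
  have hW1 : ∀ x : K, ‖W (iota x)‖ = 1 := by
    intro x
    change ‖(fourier 1 (x 0) : ℂ)‖ = 1
    rw [fourier_one]; exact Circle.norm_coe _
  have hV1 : ∀ x : K, ‖V 0 (iota x)‖ = 1 := by
    intro x
    change ‖(fourier 1 (x 1) : ℂ) * star (fourier 1 (x 0) : ℂ) ^ 0‖ = 1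
    rw [pow_zero, mul_one, fourier_one]; exact Circle.norm_coe _
  have hmu : ∃ x : K, True := ⟨0, trivial⟩
  have hne : mu ≠ 0 := by
    intro h
    have h1 := (isOpen_univ.measure_pos mu Set.univ_nonempty).ne'
    rw [h] at h1
    exact h1 rfl
  have hV0 : toWS ⟨V 0, V_mem 0⟩ ≠ 0 := by
    intro h
    rw [← map_zero toWS, toWS_eq_iff, ae_sigma] at h
    have h2 : ∀ᵐ x ∂mu, False := by
      filter_upwards [h] with x hx
      have h3 := hV1 x
      rw [hx] at h3
      simp at h3
    rw [Filter.eventually_false_iff_eq_bot, ae_eq_bot] at h2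
    exact hne h2
  -- a point where the image of `V 0` does not vanish
  have hz : ∃ z, ψ z ⟨V 0, V_mem 0⟩ ≠ 0 := by
    by_contra hc
    push Not at hc
    apply hV0
    have : Φ (toWS ⟨V 0, V_mem 0⟩) = 0 := Subtype.ext (funext fun z => hc z)
    exact Φ.injective (by rw [this, map_zero])
  obtain ⟨z0, hz0⟩ := hz
  have hrel : ∀ k, (⟨V 0, V_mem 0⟩ : AA) = ⟨W, W_mem⟩ ^ k * ⟨V k, V_mem k⟩ := by
    intro k
    apply Subtype.ext
    change V 0 = W ^ k * V k
    induction k with
    | zero => simp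
    | succ k ih => rw [ih, ← W_mul_V k, pow_succ, mul_assoc]
  have hu1 : ‖ψ z0 ⟨W, W_mem⟩‖ = 1 := by
    refine le_antisymm ((hbound z0 _).trans norm_W_le) ?_
    by_contra hlt
    push Not at hlt
    apply hz0
    have h2 : ∀ k : ℕ, ‖ψ z0 ⟨V 0, V_mem 0⟩‖ ≤ ‖ψ z0 ⟨W, W_mem⟩‖ ^ k := by
      intro k
      rw [hrel k, map_mul, map_pow, norm_mul, norm_pow]
      calc _ ≤ ‖ψ z0 ⟨W, W_mem⟩‖ ^ k * 1 := by
            gcongr
            exact (hbound z0 _).trans (norm_V_le k)
        _ = _ := mul_one _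
    have h3 : ‖ψ z0 ⟨V 0, V_mem 0⟩‖ ≤ 0 :=
      ge_of_tendsto' (tendsto_pow_atTop_nhds_zero_of_lt_one (norm_nonneg _) hlt) h2
    exact norm_le_zero_iff.mp h3
  -- maximum principle
  obtain ⟨⟨G, hG, hG2⟩, -⟩ := (Φ (toWS ⟨W, W_mem⟩)).2
  have hconst : ∀ z : Metric.ball (0 : ℂ) 1, ψ z ⟨W, W_mem⟩ = ψ z0 ⟨W, W_mem⟩ := by
    have h4 : Set.EqOn G (Function.const ℂ (G z0)) (Metric.ball 0 1) := by
      refine Complex.eqOn_of_isPreconnected_of_isMaxOn_norm
        (convex_ball (0 : ℂ) 1).isPreconnected Metric.isOpen_ball hG z0.2 ?_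
      intro z hz
      have h5 : ‖G z‖ ≤ 1 := by
        rw [← hG2 ⟨z, hz⟩, ← hψ]
        exact (hbound _ _).trans norm_W_le
      have h6 : ‖G z0‖ = 1 := by
        rw [← hG2 z0, ← hψ]
        exact hu1
      change ‖G z‖ ≤ ‖G z0‖
      rw [h6]
      exact h5
    intro z
    rw [hψ, hψ, hG2, hG2]
    exact h4 z.2
  set c : ℂ := ψ z0 ⟨W, W_mem⟩ with hc
  have h7 : toWS ⟨W, W_mem⟩ = toWS (algebraMap ℂ AA c) := by
    apply Φ.injective
    rw [AlgHom.commutes, AlgEquiv.commutes]
    apply Subtype.ext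
    funext z
    exact hconst z
  rw [toWS_eq_iff, ae_sigma] at h7
  have h8 : ∀ᵐ x ∂mu, mFourier ![1, 0] x = c := by
    filter_upwards [h7] with x hx
    change (fourier 1 (x 0) : ℂ) = c at hx
    rw [← hx]
    simp [mFourier]
  have h9 : ∫ x, mFourier ![1, 0] x ∂mu = 0 := by
    apply integral_mFourier
    intro h
    have := congrFun h 0
    simp at this
  rw [integral_congr_ae h8, integral_const] at h9
  have h10 : c ≠ 0 := by
    intro h
    rw [h] at hu1
    simp at hu1
  have h11 : mu.real Set.univ ≠ 0 := by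
    rw [Measure.real, ENNReal.toReal_ne_zero]
    exact ⟨(isOpen_univ.measure_pos mu Set.univ_nonempty).ne', measure_ne_top _ _⟩
  rw [smul_eq_zero] at h9
  rcases h9 with h | h
  · exact h11 h
  · exact h10 h

lemma mem_support (x : K) : iota x ∈ sigma.support := by
  rw [Measure.mem_support_iff_forall]
  intro U hU
  unfold sigma
  rw [iota_emb.map_apply]
  exact Measure.measure_pos_of_mem_nhds mu (iota.continuous.continuousAt hU)

lemma two_points : ∃ x ∈ sigma.support, ∃ y ∈ sigma.support, x ≠ y := by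
  refine ⟨iota 0, mem_support 0, iota (fun _ => ((1 / 2 : ℝ) : UnitAddCircle)),
    mem_support _, fun h => ?_⟩
  have h1 := congrFun (iota_injective h) 0
  have h2 : ((0 : ℝ) : UnitAddCircle) = ((1 / 2 : ℝ) : UnitAddCircle) := h1
  rw [AddCircle.coe_eq_coe_iff_of_mem_Ico (a := 0) (by simp) (by norm_num)] at h2
  norm_num at h2


/-- There are a compact Hausdorff (even metrizable) space `S`, a closed subalgebra `A` of `C(S)`
containing the constants and a finite positive Borel measure `σ` on `S` whose support has more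
than one point, such that (i) every continuous character of `A` is evaluation at exactly one point
of `S`, (ii) every invertible element of `A` is an exponential of an element of `A`,
(H1) every real-valued element of the weak-star closure `A_σ` is constant,
(H2) `A + conj A` is weak-star dense in `L^∞(σ)`, and yet `A_σ` is not isomorphic, as a complex
algebra, to `H^∞(𝔻)`. -/
theorem result :
    ∃ (S : Type) (_ : TopologicalSpace S) (_ : CompactSpace S) (_ : T2Space S)
      (_ : MeasurableSpace S) (_ : BorelSpace S) (A : Subalgebra ℂ C(S, ℂ)) (σ : Measure S),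
      TopologicalSpace.MetrizableSpace S ∧
      IsClosed (A : Set C(S, ℂ)) ∧ IsFiniteMeasure σ ∧
      (∃ x ∈ σ.support, ∃ y ∈ σ.support, x ≠ y) ∧
      CharactersArePoints A ∧ InvertiblesAreExponentials A ∧
      RealElementsAreConstant σ A ∧ SumIsDense σ A ∧
      IsEmpty (ASigma σ A ≃ₐ[ℂ] HInf) :=
  ⟨SS, inferInstance, inferInstance, inferInstance, inferInstance, inferInstance, AA, sigma,
    inferInstance, AA_closed, inferInstance, two_points, characters, invertible_exp', real_const,
    sum_dense, ⟨no_iso⟩⟩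

end Pool.Agent.Results.MP_ca8afd_an.LexOrder
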